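import Pool.Agent.H175G.Stmts2

namespace Pool.Agent.H146GP

open Finset Classical
open Pool.Agent.H175G
open Pool.Agent.H175R2 (DT nt on cpt Cn P4Free)

variable {V : Type} {G : SimpleGraph V} {c0 c1 c2 c3 c4 : V}

section facts

variable (hg : NoGem G) (hp : NoP23 G) (hc : C5c G c0 c1 c2 c3 c4)
include hg hp hc

lemma f_nn {n n' : V} (h1 : TN G c0 c1 c2 c3 c4 n) (h2 : TN G c0 c1 c2 c3 c4 n') :
    ¬ G.Adj n n' := by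
  intro h; gp 1

lemma f_deg0 {d n n' : V} (h : TD G c0 c1 c2 c3 c4 d) (h1 : TN G c0 c1 c2 c3 c4 n)
    (h2 : TN G c0 c1 c2 c3 c4 n') (a1 : G.Adj d n) (a2 : G.Adj d n') : n = n' := by
  by_contra hne; gp 1

lemma f_cl0 {d d' n : V} (h : TD G c0 c1 c2 c3 c4 d) (h' : TD G c0 c1 c2 c3 c4 d')
    (h1 : TN G c0 c1 c2 c3 c4 n) (a1 : G.Adj n d) (a2 : G.Adj n d') (hne : d ≠ d') :
    G.Adj d d' := by
  by_contra hh; gp 1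

lemma f_miss0 {d0 d1 d1' : V} (h : TD G c0 c1 c2 c3 c4 d0) (h' : TD G c1 c2 c3 c4 c0 d1)
    (h1 : TD G c1 c2 c3 c4 c0 d1') (a1 : ¬ G.Adj d0 d1) (a2 : ¬ G.Adj d0 d1') : d1 = d1' := by
  by_contra hne; gp 1

lemma f_link {d0 d1 n : V} (h : TD G c0 c1 c2 c3 c4 d0) (h' : TD G c1 c2 c3 c4 c0 d1)
    (h1 : TN G c0 c1 c2 c3 c4 n) (a1 : ¬ G.Adj d0 d1) (a2 : G.Adj d0 n) : G.Adj d1 n := by
  by_contra hh; gp 1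

lemma f_b1 {d0 d3 n : V} (h : TD G c0 c1 c2 c3 c4 d0) (h' : TD G c3 c4 c0 c1 c2 d3)
    (h1 : TN G c0 c1 c2 c3 c4 n) (a1 : G.Adj n d0) (a2 : ¬ G.Adj n d3) : G.Adj d0 d3 := by
  by_contra hh; gp 1

lemma f_b2 {d0 d3 n : V} (h : TD G c0 c1 c2 c3 c4 d0) (h' : TD G c3 c4 c0 c1 c2 d3)
    (h1 : TN G c0 c1 c2 c3 c4 n) (a1 : G.Adj n d3) (a2 : ¬ G.Adj n d0) : G.Adj d0 d3 := by
  by_contra hh; gp 1

lemma f_e0 {d d' d3 : V} (h : TD G c0 c1 c2 c3 c4 d) (h0 : TD G c0 c1 c2 c3 c4 d')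
    (h' : TD G c3 c4 c0 c1 c2 d3) (a1 : G.Adj d d') : G.Adj d d3 := by
  by_contra hh; gp 1

lemma f_e3 {d d' d0 : V} (h : TD G c3 c4 c0 c1 c2 d) (h0 : TD G c3 c4 c0 c1 c2 d')
    (h' : TD G c0 c1 c2 c3 c4 d0) (a1 : G.Adj d d') : G.Adj d d0 := by
  by_contra hh; gp 1

lemma f_tri {d0 d1 d3 : V} (h0 : TD G c0 c1 c2 c3 c4 d0) (h1 : TD G c1 c2 c3 c4 c0 d1)
    (h3 : TD G c3 c4 c0 c1 c2 d3) (a : G.Adj d0 d1) (b : G.Adj d3 d0) (c : G.Adj d3 d1) : False := by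
  gp 1

lemma f_lk {d0 d0' d1 d3 : V} (h0 : TD G c0 c1 c2 c3 c4 d0) (h0' : TD G c0 c1 c2 c3 c4 d0')
    (h1 : TD G c1 c2 c3 c4 c0 d1)
    (h3 : TD G c3 c4 c0 c1 c2 d3) (a : ¬ G.Adj d0 d1) (b : G.Adj d3 d0) (c : ¬ G.Adj d3 d1) :
    G.Adj d3 d0' := by
  by_contra hh; gp 1

end facts

end Pool.Agent.H146GP
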